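import Mathlib.Combinatorics.SimpleGraph.Diam
import Mathlib.Algebra.BigOperators.Sym
import Mathlib.Algebra.Polynomial.Eval.Coeff
import Mathlib.Algebra.Polynomial.AlgebraMap
import Mathlib.Data.Complex.Basic
import Mathlib.Tactic
import Pool.Agent.Q256.Surv

/-!
# Connected graphs of arbitrarily large diameter with only rational Wiener roots

For every `L ≥ 1` there are `n`, `m` and a connected graph with `n` vertices, diameter at least `L`
and Wiener polynomial `n X (X + m)^L`. Outline. Take a clique `Y` with a hub and many arms (paths)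
of lengths `1, ..., L`, where the vertices of the same level of all arms form a clique. A vertex of
`Y` is joined to the first vertex of an arm or not; the hub is joined to the first vertex of every
arm. If the edge from `y` to an arm of length `l` is omitted, the distances from `y` to the arm grow
by one, and the Wiener polynomial changes by `X^(l+1) - X`. So all coefficients of `X^k`, `k ≥ 2`,
can be prescribed, and the coefficient of `X` is determined by the number of vertices.
-/

set_option autoImplicit false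

namespace Pool.Agent.Results.MP_96b1db_co.RationalRoots

open Polynomial Finset Pool.Agent.Q256.Surv

/-- The Wiener polynomial: the sum of `X^{d(u,v)}` over the unordered pairs of distinct
vertices. -/
noncomputable def wiener {V : Type} [Fintype V] (G : SimpleGraph V) : ℤ[X] :=
  open Classical in
  ∑ e ∈ (univ : Finset (Sym2 V)).filter (fun e => ¬ e.IsDiag),
    X ^ (Sym2.lift ⟨fun u v => G.dist u v, fun _ _ => G.dist_comm⟩ e)

/-- twice the Wiener polynomial is a sum over ordered pairs -/
theorem two_wiener {V : Type} [Fintype V] (G : SimpleGraph V) :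
    ∑ u : V, ∑ v : V, (X : ℤ[X]) ^ (G.dist u v) = 2 * wiener G + (Fintype.card V : ℤ[X]) := by
  classical
  let _ : LinearOrder V := linearOrderOfSTO (WellOrderingRel (α := V))
  have h1 : wiener G = ∑ i ∈ (univ : Finset V).offDiag with i.1 < i.2,
      (X : ℤ[X]) ^ (G.dist i.1 i.2) := by
    have h := Finset.sum_sym2_filter_not_isDiag (univ : Finset V)
      (fun e => (X : ℤ[X]) ^ (Sym2.lift ⟨fun u v => G.dist u v, fun _ _ => G.dist_comm⟩ e))
    rw [Finset.sym2_univ] at h
    unfold wiener
    refine Eq.trans ?_ (h.trans ?_)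
    · exact Finset.sum_congr (by ext; simp) (fun _ _ => rfl)
    · rfl
  have h2 : ∑ i ∈ (univ : Finset V).offDiag with ¬ i.1 < i.2,
      (X : ℤ[X]) ^ (G.dist i.1 i.2) = wiener G := by
    rw [h1]
    refine Finset.sum_bij' (fun i _ => (i.2, i.1)) (fun i _ => (i.2, i.1)) ?_ ?_ ?_ ?_ ?_
    · intro i hi
      simp only [mem_filter, mem_offDiag, mem_univ, true_and, not_lt] at hi ⊢
      exact ⟨Ne.symm hi.1, lt_of_le_of_ne hi.2 (Ne.symm hi.1)⟩
    · intro i hi
      simp only [mem_filter, mem_offDiag, mem_univ, true_and, not_lt] at hi ⊢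
      exact ⟨Ne.symm hi.1, hi.2.le⟩
    · intro i hi; rfl
    · intro i hi; rfl
    · intro i hi
      simp only [G.dist_comm]
  have h3 : ∑ i ∈ (univ : Finset V).offDiag, (X : ℤ[X]) ^ (G.dist i.1 i.2) = 2 * wiener G := by
    rw [← Finset.sum_filter_add_sum_filter_not _ (fun i => i.1 < i.2), h2, ← h1]
    ring
  have h4 : ∑ i ∈ (univ : Finset V).diag, (X : ℤ[X]) ^ (G.dist i.1 i.2) =
      (Fintype.card V : ℤ[X]) := by
    rw [Finset.sum_diag]
    simp
  rw [← Finset.sum_product' (f := fun u v => (X : ℤ[X]) ^ (G.dist u v)),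
    ← Finset.diag_union_offDiag, Finset.sum_union (Finset.disjoint_diag_offDiag _), h4]
  rw [← h3]
  ring

/-! ### the metric -/

variable {α : Type} [DecidableEq α] {p : ℕ}

/-- the vertices: the clique `Y` with its hub `none`, and the vertices of the arms -/
abbrev Vt (p : ℕ) (l : α → ℕ) : Type := Option (Fin p) ⊕ (Σ a : α, Fin (l a))

/-- `1` if the edge from `y` to the arm `a` is omitted -/
def ind (R : Finset (Fin p × α)) : Option (Fin p) → α → ℕ
  | none, _ => 0
  | some x, a => if (x, a) ∈ R then 1 else 0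

theorem ind_le (R : Finset (Fin p × α)) (y : Option (Fin p)) (a : α) : ind R y a ≤ 1 := by
  cases y with
  | none => exact Nat.zero_le _
  | some x => simp only [ind]; split_ifs <;> omega

/-- the metric -/
def D (l : α → ℕ) (R : Finset (Fin p × α)) : Vt p l → Vt p l → ℕ
  | Sum.inl y, Sum.inl z => if y = z then 0 else 1
  | Sum.inl y, Sum.inr v => v.2.val + 1 + ind R y v.1
  | Sum.inr u, Sum.inl y => u.2.val + 1 + ind R y u.1
  | Sum.inr u, Sum.inr v => (if u.1 = v.1 then 0 else 1) +
      ((u.2.val - v.2.val) + (v.2.val - u.2.val))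

theorem D_geo (l : α → ℕ) (R : Finset (Fin p × α)) : GeoMetric (D l R) where
  self := by
    rintro (y | u) <;> simp [D]
  eq_of := by
    rintro (y | ⟨a, i⟩) (z | ⟨b, j⟩) h
    · simp only [D] at h
      split_ifs at h with h1
      rw [h1]
    · simp only [D] at h
      omega
    · simp only [D] at h
      omega
    · simp only [D] at h
      split_ifs at h with h1
      · subst h1
        have : i = j := Fin.ext (by omega)
        rw [this]
      · omega
  symm := by
    rintro (y | ⟨a, i⟩) (z | ⟨b, j⟩)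
    · simp only [D, eq_comm]
    · rfl
    · rfl
    · simp only [D, eq_comm (a := a)]
      omega
  tri := by
    rintro (y | ⟨a, i⟩) (z | ⟨b, j⟩) (w | ⟨c, k⟩)
    · simp only [D]
      split_ifs <;> simp_all
    · have h1 := ind_le R y c
      simp only [D]
      split_ifs with h
      · subst h; omega
      · omega
    · have h1 := ind_le R y b
      simp only [D]
      split_ifs <;> omega
    · have h1 := ind_le R y c
      simp only [D]
      split_ifs with h
      · subst h; omega
      · omega
    · have h1 := ind_le R w a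
      simp only [D]
      split_ifs with h
      · subst h; omega
      · omega
    · simp only [D]
      split_ifs <;> omega
    · have h1 := ind_le R w a
      simp only [D]
      split_ifs with h
      · subst h; omega
      · omega
    · simp only [D]
      split_ifs <;> first | omega | (exfalso; simp_all)
  desc := by
    rintro (y | ⟨a, i⟩) (z | ⟨b, j⟩) h
    · have h1 : y ≠ z := fun hh => h (by rw [hh])
      refine ⟨Sum.inl y, ?_, ?_⟩
      · simp [D, Ne.symm h1]
      · simp [D, h1]
    · rcases Nat.eq_zero_or_pos j.val with h0 | h0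
      · rcases Nat.eq_zero_or_pos (ind R y b) with h1 | h1
        · exact ⟨Sum.inl y, by simp [D, h0, h1], by simp [D, h0, h1]⟩
        · have h2 : y ≠ none := by
            rintro rfl
            simp [ind] at h1
          have h3 := ind_le R y b
          refine ⟨Sum.inl none, ?_, ?_⟩
          · simp [D, h0, ind]
          · simp only [D, h0, if_neg h2]
            omega
      · have h1 := j.isLt
        refine ⟨Sum.inr ⟨b, ⟨j.val - 1, by omega⟩⟩, ?_, ?_⟩
        · simp only [D, if_true]
          omega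
        · simp only [D]
          omega
    · rcases Nat.eq_zero_or_pos (ind R z a) with h1 | h1
      · rcases Nat.eq_zero_or_pos i.val with h0 | h0
        · exact ⟨Sum.inr ⟨a, i⟩, by simp [D, h0, h1], by simp [D, h0, h1]⟩
        · have h2 := i.isLt
          refine ⟨Sum.inr ⟨a, ⟨0, by omega⟩⟩, ?_, ?_⟩
          · simp only [D, h1]
          · simp only [D, h1, if_true]
            omega
      · have h2 : z ≠ none := by
          rintro rfl
          simp [ind] at h1
        have h3 := ind_le R z a
        have h4 : ind R none a = 0 := rfl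
        refine ⟨Sum.inl none, ?_, ?_⟩
        · simp [D, h2]
        · simp only [D, h4]
          omega
    · have hi := i.isLt
      have hj := j.isLt
      by_cases hab : a = b
      · subst hab
        have hij : i.val ≠ j.val := fun hh => h (by rw [Fin.ext hh])
        rcases lt_or_gt_of_ne hij with h1 | h1
        · refine ⟨Sum.inr ⟨a, ⟨j.val - 1, by omega⟩⟩, ?_, ?_⟩
          · simp only [D, if_true]
            omega
          · simp only [D, if_true]
            omega
        · refine ⟨Sum.inr ⟨a, ⟨j.val + 1, by omega⟩⟩, ?_, ?_⟩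
          · simp only [D, if_true]
            omega
          · simp only [D, if_true]
            omega
      · rcases lt_trichotomy i.val j.val with h1 | h1 | h1
        · refine ⟨Sum.inr ⟨b, ⟨j.val - 1, by omega⟩⟩, ?_, ?_⟩
          · simp only [D, if_true]
            omega
          · simp only [D, if_neg hab]
            omega
        · refine ⟨Sum.inr ⟨a, i⟩, ?_, ?_⟩
          · simp only [D, if_neg (Ne.symm hab)]
            omega
          · simp only [D, if_neg hab, if_true]
            omega
        · refine ⟨Sum.inr ⟨a, ⟨j.val, by omega⟩⟩, ?_, ?_⟩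
          · simp only [D, if_neg (Ne.symm hab)]
            omega
          · simp only [D, if_neg hab, if_true]
            omega

/-! ### the polynomials -/

theorem arm_sum (m e : ℕ) (he : e ≤ 1) :
    ∑ i : Fin m, (X : ℤ[X]) ^ (i.val + 1 + e) = ∑ i : Fin m, (X : ℤ[X]) ^ (i.val + 1) +
      (e : ℤ[X]) * (X ^ (m + 1) - X) := by
  rw [Fin.sum_univ_eq_sum_range (fun i => (X : ℤ[X]) ^ (i + 1 + e)) m,
    Fin.sum_univ_eq_sum_range (fun i => (X : ℤ[X]) ^ (i + 1)) m]
  rcases Nat.le_one_iff_eq_zero_or_eq_one.1 he with rfl | rfl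
  · simp
  · have h := Finset.sum_range_sub (fun i => (X : ℤ[X]) ^ (i + 1)) m
    simp only [zero_add, pow_one] at h
    rw [Nat.cast_one, one_mul, ← h, Finset.sum_sub_distrib]
    ring

variable [Fintype α]

/-- the sum over ordered pairs -/
noncomputable def S (l : α → ℕ) (R : Finset (Fin p × α)) : ℤ[X] :=
  ∑ u : Vt p l, ∑ v : Vt p l, X ^ (D l R u v)

theorem cross (l : α → ℕ) (R : Finset (Fin p × α)) :
    ∑ y : Option (Fin p), ∑ v : (Σ a : α, Fin (l a)), (X : ℤ[X]) ^ (v.2.val + 1 + ind R y v.1) =
    ∑ _y : Option (Fin p), ∑ v : (Σ a : α, Fin (l a)), (X : ℤ[X]) ^ (v.2.val + 1) +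
      ∑ x ∈ R, (X ^ (l x.2 + 1) - X) := by
  have h1 : ∀ y : Option (Fin p),
      ∑ v : (Σ a : α, Fin (l a)), (X : ℤ[X]) ^ (v.2.val + 1 + ind R y v.1) =
      ∑ v : (Σ a : α, Fin (l a)), (X : ℤ[X]) ^ (v.2.val + 1) +
        ∑ a : α, (ind R y a : ℤ[X]) * (X ^ (l a + 1) - X) := by
    intro y
    rw [Fintype.sum_sigma, Fintype.sum_sigma, ← Finset.sum_add_distrib]
    exact Finset.sum_congr rfl (fun a _ => arm_sum _ _ (ind_le R y a))
  rw [Finset.sum_congr rfl (fun y _ => h1 y), Finset.sum_add_distrib]
  congr 1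
  rw [Fintype.sum_option]
  have h2 : ∑ a : α, (ind R none a : ℤ[X]) * (X ^ (l a + 1) - X) = 0 := by
    apply Finset.sum_eq_zero
    intro a _
    simp [ind]
  rw [h2, zero_add, ← Finset.sum_product' (f := fun x a =>
    ((ind R (some x) a : ℕ) : ℤ[X]) * (X ^ (l a + 1) - X)), Finset.univ_product_univ]
  rw [← Finset.sum_subset (Finset.subset_univ R)]
  · apply Finset.sum_congr rfl
    intro x hx
    simp [ind, hx]
  · intro x _ hx
    simp [ind, hx]

theorem S_eq (l : α → ℕ) (R : Finset (Fin p × α)) :
    S l R = S l (∅ : Finset (Fin p × α)) + 2 * ∑ x ∈ R, (X ^ (l x.2 + 1) - X) := by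
  have h1 := cross l R
  have h2 := cross l (∅ : Finset (Fin p × α))
  rw [Finset.sum_empty, add_zero] at h2
  rw [← h2] at h1
  have h3 : ∀ R' : Finset (Fin p × α), ∑ v : (Σ a : α, Fin (l a)), ∑ y : Option (Fin p),
      (X : ℤ[X]) ^ (v.2.val + 1 + ind R' y v.1) = ∑ y : Option (Fin p),
      ∑ v : (Σ a : α, Fin (l a)), (X : ℤ[X]) ^ (v.2.val + 1 + ind R' y v.1) :=
    fun R' => Finset.sum_comm
  unfold S
  simp only [Fintype.sum_sum_type, D, Finset.sum_add_distrib]
  rw [h3 R, h3 (∅ : Finset (Fin p × α)), h1]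
  ring

theorem wiener_eq (l : α → ℕ) (R : Finset (Fin p × α)) :
    wiener (ofD (D l R) (D_geo l R)) = wiener (ofD (D l (∅ : Finset (Fin p × α))) (D_geo l ∅)) +
      ∑ x ∈ R, (X ^ (l x.2 + 1) - X) := by
  have h1 := two_wiener (ofD (D l R) (D_geo l R))
  have h2 := two_wiener (ofD (D l (∅ : Finset (Fin p × α))) (D_geo l ∅))
  simp only [ofD_dist] at h1 h2
  have h3 := S_eq l R
  unfold S at h3
  rw [h1, h2] at h3
  have h4 : (2 : ℤ[X]) ≠ 0 := two_ne_zero
  apply mul_left_cancel₀ h4
  linear_combination h3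

/-- the number of arm vertices with level at least `k` (the first level is `1`) -/
def high (l : α → ℕ) (k : ℕ) : ℕ := ∑ a : α, ∑ i : Fin (l a), if k ≤ i.val + 1 then 1 else 0

theorem two_coeff (l : α → ℕ) (k : ℕ) (hk : 2 ≤ k) :
    2 * (wiener (ofD (D l (∅ : Finset (Fin p × α))) (D_geo l ∅))).coeff k =
      ∑ u : Vt p l, ∑ v : Vt p l, if k = D l ∅ u v then (1 : ℤ) else 0 := by
  have h2 := two_wiener (ofD (D l (∅ : Finset (Fin p × α))) (D_geo l ∅))
  simp only [ofD_dist] at h2
  have h3 := congrArg (fun P : ℤ[X] => P.coeff k) h2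
  simp only [finsetSum_coeff, coeff_X_pow, coeff_add] at h3
  rw [h3]
  have h4 : ((Fintype.card (Vt p l) : ℕ) : ℤ[X]).coeff k = 0 := by
    rw [← C_eq_natCast, coeff_C, if_neg (by omega)]
  have h5 : ∀ P : ℤ[X], (2 * P).coeff k = 2 * P.coeff k := by
    intro P
    rw [show (2 : ℤ[X]) = C 2 by simp, coeff_C_mul]
  rw [h4, h5, add_zero]

theorem coeff_nonneg (l : α → ℕ) (k : ℕ) (hk : 2 ≤ k) :
    0 ≤ (wiener (ofD (D l (∅ : Finset (Fin p × α))) (D_geo l ∅))).coeff k := by
  have h1 := two_coeff (p := p) l k hk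
  have h2 : (0 : ℤ) ≤ ∑ u : Vt p l, ∑ v : Vt p l, if k = D l ∅ u v then (1 : ℤ) else 0 :=
    Finset.sum_nonneg (fun u _ => Finset.sum_nonneg (fun v _ => by split_ifs <;> norm_num))
  omega

/-- marks the arm vertices with level at least `k` -/
def hi (l : α → ℕ) (k : ℕ) : Vt p l → ℕ
  | Sum.inl _ => 0
  | Sum.inr u => if k ≤ u.2.val + 1 then 1 else 0

theorem hi_sum (l : α → ℕ) (k : ℕ) : ∑ u : Vt p l, hi l k u = high l k := by
  simp only [Fintype.sum_sum_type, hi, Finset.sum_const_zero, zero_add, Fintype.sum_sigma, high]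

theorem coeff_le (l : α → ℕ) (k : ℕ) (hk : 2 ≤ k) :
    (wiener (ofD (D l (∅ : Finset (Fin p × α))) (D_geo l ∅))).coeff k ≤
      (Fintype.card (Vt p l) : ℤ) * (high l k : ℤ) := by
  have h1 := two_coeff (p := p) l k hk
  have h2 : ∑ u : Vt p l, ∑ v : Vt p l, (if k = D l ∅ u v then (1 : ℤ) else 0) ≤
      ∑ u : Vt p l, ∑ v : Vt p l, ((hi l k u : ℤ) + (hi l k v : ℤ)) := by
    apply Finset.sum_le_sum
    intro u _
    apply Finset.sum_le_sum
    intro v _
    split_ifs with h
    · rcases u with y | ⟨a, i⟩ <;> rcases v with z | ⟨b, j⟩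
      · simp only [D] at h
        split_ifs at h <;> omega
      · have h3 : ind (∅ : Finset (Fin p × α)) y b = 0 := by
          cases y <;> simp [ind]
        simp only [D, h3] at h
        simp only [hi]
        rw [if_pos (by omega)]
        norm_num
      · have h3 : ind (∅ : Finset (Fin p × α)) z a = 0 := by
          cases z <;> simp [ind]
        simp only [D, h3] at h
        simp only [hi]
        rw [if_pos (by omega)]
        norm_num
      · simp only [D] at h
        simp only [hi]
        by_cases h5 : k ≤ i.val + 1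
        · rw [if_pos h5]
          split_ifs <;> norm_num
        · have h6 : k ≤ j.val + 1 := by
            split_ifs at h <;> omega
          rw [if_pos h6]
          split_ifs <;> norm_num
    · positivity
  have h3 : ∑ u : Vt p l, ∑ v : Vt p l, ((hi l k u : ℤ) + (hi l k v : ℤ)) =
      2 * ((Fintype.card (Vt p l) : ℤ) * (high l k : ℤ)) := by
    have h4 : (∑ u : Vt p l, (hi l k u : ℤ)) = (high l k : ℤ) := by
      rw [← hi_sum (p := p) l k]
      push_cast
      rfl
    simp only [Finset.sum_add_distrib, Finset.sum_const, Finset.card_univ, nsmul_eq_mul]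
    rw [← Finset.mul_sum, h4]
    ring
  rw [h3] at h2
  omega

/-! ### the choice of the arms -/

/-- the number of arms of length `j` is `2 * qq L m j` -/
def qq (L m j : ℕ) : ℕ := L.choose j * m ^ (L - j)

/-- the arms -/
abbrev Arm (L m : ℕ) : Type := Σ j : Fin L, Fin (2 * qq L m (j.val + 1))

/-- the length of an arm -/
def len (L m : ℕ) (a : Arm L m) : ℕ := a.1.val + 1

theorem high_zero (L m k : ℕ) (hk : L < k) : high (len L m) k = 0 := by
  unfold high
  apply Finset.sum_eq_zero
  intro a _
  apply Finset.sum_eq_zero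
  intro i _
  have h1 := i.isLt
  have h2 := a.1.isLt
  have h3 : len L m a = a.1.val + 1 := rfl
  rw [if_neg (by omega)]

theorem high_le (L m k : ℕ) (hL : 1 ≤ L) (hm : m = 2 * L ^ 2 * 2 ^ L) (_hk1 : 1 ≤ k)
    (hk : k ≤ L) : high (len L m) k ≤ m ^ (L - k + 1) := by
  have hm1 : 1 ≤ m := by
    rw [hm]
    exact Nat.succ_le_of_lt (by positivity)
  have h1 : ∀ a : Arm L m, (∑ i : Fin (len L m a), if k ≤ i.val + 1 then 1 else 0) ≤
      if k ≤ a.1.val + 1 then L else 0 := by
    intro a
    have h2 := a.1.isLt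
    have h3 : len L m a = a.1.val + 1 := rfl
    split_ifs with h
    · calc (∑ i : Fin (len L m a), if k ≤ i.val + 1 then 1 else 0) ≤
          ∑ _i : Fin (len L m a), 1 := by
            apply Finset.sum_le_sum
            intro i _
            split_ifs <;> omega
        _ = len L m a := by simp
        _ ≤ L := by omega
    · apply le_of_eq
      apply Finset.sum_eq_zero
      intro i _
      have h4 := i.isLt
      rw [if_neg (by omega)]
  have h2 : ∀ j : Fin L, (∑ _x : Fin (2 * qq L m (j.val + 1)),
      if k ≤ j.val + 1 then L else 0) ≤ 2 * 2 ^ L * m ^ (L - k) * L := by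
    intro j
    rw [Finset.sum_const, Finset.card_univ, Fintype.card_fin, smul_eq_mul]
    split_ifs with h
    · apply Nat.mul_le_mul_right
      have h3 : L.choose (j.val + 1) ≤ 2 ^ L := Nat.choose_le_two_pow _ _
      have h4 : m ^ (L - (j.val + 1)) ≤ m ^ (L - k) := Nat.pow_le_pow_right hm1 (by omega)
      have h5 := Nat.mul_le_mul h3 h4
      unfold qq
      rw [mul_assoc]
      exact Nat.mul_le_mul_left 2 h5
    · simp
  calc high (len L m) k ≤ ∑ a : Arm L m, if k ≤ a.1.val + 1 then L else 0 :=
        Finset.sum_le_sum (fun a _ => h1 a)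
    _ = ∑ j : Fin L, ∑ _x : Fin (2 * qq L m (j.val + 1)), if k ≤ j.val + 1 then L else 0 := by
        rw [Fintype.sum_sigma]
    _ ≤ ∑ _j : Fin L, 2 * 2 ^ L * m ^ (L - k) * L := Finset.sum_le_sum (fun j _ => h2 j)
    _ = m * m ^ (L - k) := by
        rw [Finset.sum_const, Finset.card_univ, Fintype.card_fin, smul_eq_mul]
        nth_rewrite 2 [hm]
        ring
    _ = m ^ (L - k + 1) := by ring

theorem high_one (L m : ℕ) : high (len L m) 1 = ∑ a : Arm L m, len L m a := by
  unfold high
  apply Finset.sum_congr rfl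
  intro a _
  simp

/-- the omitted edges -/
theorem exists_R (L m p : ℕ) (r : Fin L → ℕ)
    (hr : ∀ j : Fin L, r j ≤ p * (2 * qq L m (j.val + 1))) :
    ∃ R : Finset (Fin p × Arm L m), ∀ F : ℕ → ℤ[X],
      ∑ x ∈ R, F (len L m x.2) = ∑ j : Fin L, (r j : ℤ[X]) * F (j.val + 1) := by
  classical
  have h1 : ∀ j : Fin L, ∃ T : Finset (Fin p × Fin (2 * qq L m (j.val + 1))), T.card = r j := by
    intro j
    obtain ⟨T, -, hT⟩ := Finset.exists_subset_card_eq (s := (univ : Finset (Fin p ×
      Fin (2 * qq L m (j.val + 1))))) (n := r j) (by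
        rw [Finset.card_univ, Fintype.card_prod, Fintype.card_fin, Fintype.card_fin]
        exact hr j)
    exact ⟨T, hT⟩
  choose T hT using h1
  refine ⟨univ.filter (fun x => (x.1, x.2.2) ∈ T x.2.1), ?_⟩
  intro F
  rw [Finset.sum_filter, ← Finset.univ_product_univ, Finset.sum_product, Finset.sum_comm,
    Fintype.sum_sigma]
  apply Finset.sum_congr rfl
  intro j _
  rw [Finset.sum_comm, ← Finset.sum_product' (f := fun (x : Fin p)
    (y : Fin (2 * qq L m (j.val + 1))) => if (x, y) ∈ T j then F (len L m ⟨j, y⟩) else 0),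
    Finset.univ_product_univ]
  have h2 : ∀ x : Fin p × Fin (2 * qq L m (j.val + 1)), (if (x.1, x.2) ∈ T j then
      F (len L m ⟨j, x.2⟩) else 0) = if x ∈ T j then F (j.val + 1) else 0 := fun x => rfl
  rw [Finset.sum_congr rfl (fun x _ => h2 x), Finset.sum_ite_mem, Finset.univ_inter,
    Finset.sum_const, hT, nsmul_eq_mul]

/-- the connected graph with Wiener polynomial `n X (X + m)^L` -/
theorem main (L : ℕ) (hL : 1 ≤ L) : ∃ (V : Type) (_ : Fintype V) (G : SimpleGraph V) (n m : ℕ),
    1 ≤ n ∧ G.Connected ∧ L ≤ G.diam ∧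
    wiener G = C (n : ℤ) * (X * (X + C (m : ℤ)) ^ L) := by
  classical
  obtain ⟨m, hm⟩ : ∃ m, m = 2 * L ^ 2 * 2 ^ L := ⟨_, rfl⟩
  have hm1 : 1 ≤ m := by
    rw [hm]
    exact Nat.succ_le_of_lt (by positivity)
  obtain ⟨s, hs⟩ : ∃ s, s = high (len L m) 1 := ⟨_, rfl⟩
  have hs1 : s ≤ m ^ L := by
    have h := high_le L m 1 hL hm le_rfl hL
    rw [show L - 1 + 1 = L by omega] at h
    rw [hs]; exact h
  have hpow : m ^ L < (m + 1) ^ L := Nat.pow_lt_pow_left (Nat.lt_succ_self m) (by omega)
  obtain ⟨p, hp⟩ : ∃ p, p = 2 * (m + 1) ^ L - s := ⟨_, rfl⟩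
  obtain ⟨n, hn⟩ : ∃ n, n = 2 * (m + 1) ^ L + 1 := ⟨_, rfl⟩
  have hn2 : n ≤ 2 * p := by omega
  have hcard : Fintype.card (Vt p (len L m)) = n := by
    rw [Fintype.card_sum, Fintype.card_option, Fintype.card_fin, Fintype.card_sigma]
    simp only [Fintype.card_fin]
    rw [← high_one, ← hs]
    omega
  obtain ⟨b, hb⟩ : ∃ b : ℕ → ℤ, b = fun k =>
    (wiener (ofD (D (len L m) (∅ : Finset (Fin p × Arm L m))) (D_geo (len L m) ∅))).coeff k :=
    ⟨_, rfl⟩
  have hb0 : ∀ k, 2 ≤ k → 0 ≤ b k := by
    intro k hk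
    rw [hb]
    exact coeff_nonneg (len L m) k hk
  have hb1 : ∀ k, 2 ≤ k → b k ≤ (n : ℤ) * (high (len L m) k : ℤ) := by
    intro k hk
    have h := coeff_le (p := p) (len L m) k hk
    rw [hcard] at h
    rw [hb]
    exact h
  have hb2 : ∀ k, L < k → 2 ≤ k → b k = 0 := by
    intro k hk hk2
    have h1 := hb0 k hk2
    have h2 := hb1 k hk2
    rw [high_zero L m k hk] at h2
    simp only [Nat.cast_zero, mul_zero] at h2
    omega
  have hb3 : ∀ j : Fin L, b (j.val + 2) ≤ (n : ℤ) * (qq L m (j.val + 1) : ℤ) := by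
    intro j
    have hj := j.isLt
    rcases Nat.lt_or_ge L (j.val + 2) with h | h
    · rw [hb2 _ h (by omega)]
      positivity
    · refine (hb1 _ (by omega)).trans ?_
      apply mul_le_mul_of_nonneg_left _ (by positivity)
      have h1 := high_le L m (j.val + 2) hL hm (by omega) h
      have h2 : m ^ (L - (j.val + 2) + 1) ≤ qq L m (j.val + 1) := by
        unfold qq
        rw [show L - (j.val + 2) + 1 = L - (j.val + 1) by omega]
        exact Nat.le_mul_of_pos_left _ (Nat.choose_pos (by omega))
      exact_mod_cast h1.trans h2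
  obtain ⟨R, hR⟩ := exists_R L m p
    (fun j => ((n : ℤ) * (qq L m (j.val + 1) : ℤ) - b (j.val + 2)).toNat) (by
      intro j
      have h1 := hb3 j
      have h2 := hb0 (j.val + 2) (by omega)
      have h3 : n * qq L m (j.val + 1) ≤ p * (2 * qq L m (j.val + 1)) := by
        calc n * qq L m (j.val + 1) ≤ (2 * p) * qq L m (j.val + 1) :=
              Nat.mul_le_mul_right _ hn2
          _ = p * (2 * qq L m (j.val + 1)) := by ring
      have h4 : (n : ℤ) * (qq L m (j.val + 1) : ℤ) ≤
          ((p * (2 * qq L m (j.val + 1)) : ℕ) : ℤ) := by exact_mod_cast h3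
      omega)
  have hdist := ofD_dist (D (len L m) R) (D_geo (len L m) R)
  have hconn : (ofD (D (len L m) R) (D_geo (len L m) R)).Connected :=
    ofD_connected (D (len L m) R) (D_geo (len L m) R)
  refine ⟨Vt p (len L m), inferInstance, ofD (D (len L m) R) (D_geo (len L m) R), n, m, by omega,
    hconn, ?_, ?_⟩
  · have hq : 0 < 2 * qq L m (L - 1 + 1) := by
      unfold qq
      rw [show L - 1 + 1 = L by omega, Nat.choose_self, Nat.sub_self]
      simp
    have h1 : (ofD (D (len L m) R) (D_geo (len L m) R)).dist (Sum.inl none)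
        (Sum.inr ⟨⟨⟨L - 1, by omega⟩, ⟨0, hq⟩⟩, ⟨L - 1, by simp [len]⟩⟩) = L := by
      rw [hdist]
      simp only [D, ind]
      omega
    have h2 := SimpleGraph.dist_le_diam (SimpleGraph.connected_iff_ediam_ne_top.1 hconn)
      (u := Sum.inl none)
      (v := Sum.inr ⟨⟨⟨L - 1, by omega⟩, ⟨0, hq⟩⟩, ⟨L - 1, by simp [len]⟩⟩)
    rw [h1] at h2
    exact h2
  · obtain ⟨W, hW⟩ : ∃ W, W = wiener (ofD (D (len L m) R) (D_geo (len L m) R)) := ⟨_, rfl⟩
    have hW1 : W = wiener (ofD (D (len L m) (∅ : Finset (Fin p × Arm L m)))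
        (D_geo (len L m) ∅)) + ∑ j : Fin L,
        (((((n : ℤ) * (qq L m (j.val + 1) : ℤ) - b (j.val + 2)).toNat : ℕ) : ℤ[X])) *
          (X ^ (j.val + 1 + 1) - X) := by
      rw [hW, wiener_eq, ← hR (fun l => X ^ (l + 1) - X)]
    have htwo := two_wiener (ofD (D (len L m) R) (D_geo (len L m) R))
    simp only [hdist] at htwo
    rw [← hW] at htwo ⊢
    -- the value at one
    have hone : 2 * W.eval 1 + (n : ℤ) = (n : ℤ) * n := by
      have h := congrArg (fun P : ℤ[X] => P.eval 1) htwo
      simp only [eval_finsetSum, eval_pow, eval_X, one_pow, eval_add, eval_natCast,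
        Finset.sum_const, Finset.card_univ, nsmul_eq_mul, mul_one, hcard] at h
      rw [h]
      simp
    have hone' : W.eval 1 = (n : ℤ) * ((m : ℤ) + 1) ^ L := by
      have h1 : (n : ℤ) = 2 * ((m : ℤ) + 1) ^ L + 1 := by rw [hn]; push_cast; ring
      have h2 : (2 : ℤ) * W.eval 1 = 2 * ((n : ℤ) * ((m : ℤ) + 1) ^ L) := by
        linear_combination hone + (n : ℤ) * h1
      omega
    -- the coefficients
    have hzero : W.coeff 0 = 0 := by
      have h := congrArg (fun P : ℤ[X] => P.coeff 0) htwo
      simp only [finsetSum_coeff, coeff_X_pow, coeff_add] at h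
      have h5 : (2 * W).coeff 0 = 2 * W.coeff 0 := by
        rw [show (2 : ℤ[X]) = C 2 by simp, coeff_C_mul]
      have h4 : ((Fintype.card (Vt p (len L m)) : ℕ) : ℤ[X]).coeff 0 =
          Fintype.card (Vt p (len L m)) := by
        rw [← C_eq_natCast, coeff_C, if_pos rfl]
      have h6 : (∑ u : Vt p (len L m), ∑ v : Vt p (len L m),
          if 0 = D (len L m) R u v then (1 : ℤ) else 0) = Fintype.card (Vt p (len L m)) := by
        have h7 : ∀ u : Vt p (len L m), (∑ v : Vt p (len L m),
            if 0 = D (len L m) R u v then (1 : ℤ) else 0) = 1 := by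
          intro u
          rw [Finset.sum_eq_single u]
          · rw [(D_geo (len L m) R).self, if_pos rfl]
          · intro v _ hv
            rw [if_neg]
            intro h0
            exact hv ((D_geo (len L m) R).eq_of u v h0.symm).symm
          · intro h0
            exact absurd (mem_univ u) h0
        rw [Finset.sum_congr rfl (fun u _ => h7 u)]
        simp
      rw [h6, h5, h4] at h
      omega
    have hcoeff : ∀ k, 2 ≤ k → W.coeff k =
        (C (n : ℤ) * (X * (X + C (m : ℤ)) ^ L)).coeff k := by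
      intro k hk
      obtain ⟨k', rfl⟩ : ∃ k', k = k' + 2 := ⟨k - 2, by omega⟩
      rw [coeff_C_mul, show k' + 2 = (k' + 1) + 1 by ring, coeff_X_mul, coeff_X_add_C_pow, hW1,
        coeff_add, finsetSum_coeff]
      have h1 : ∀ j : Fin L, (((((n : ℤ) * (qq L m (j.val + 1) : ℤ) -
          b (j.val + 2)).toNat : ℕ) : ℤ[X]) * (X ^ (j.val + 1 + 1) - X)).coeff (k' + 1 + 1) =
          if j.val = k' then (n : ℤ) * (qq L m (j.val + 1) : ℤ) - b (j.val + 2) else 0 := by
        intro j
        rw [← C_eq_natCast, coeff_C_mul, coeff_sub, coeff_X_pow, coeff_X]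
        have h2 := hb3 j
        rw [if_neg (show ¬ (1 = k' + 1 + 1) by omega)]
        by_cases h3 : j.val = k'
        · rw [if_pos (show k' + 1 + 1 = j.val + 1 + 1 by omega), if_pos h3]
          simp only [sub_zero, mul_one]
          omega
        · rw [if_neg (show ¬ (k' + 1 + 1 = j.val + 1 + 1) by omega), if_neg h3]
          simp
      rw [Finset.sum_congr rfl (fun j _ => h1 j)]
      have h4 : (wiener (ofD (D (len L m) (∅ : Finset (Fin p × Arm L m)))
          (D_geo (len L m) ∅))).coeff (k' + 1 + 1) = b (k' + 2) := by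
        rw [hb]
      rw [h4]
      by_cases h5 : k' < L
      · rw [Finset.sum_eq_single (⟨k', h5⟩ : Fin L)]
        · rw [if_pos rfl]
          simp only [qq]
          push_cast
          ring
        · intro j _ hj
          rw [if_neg]
          intro h6
          exact hj (Fin.ext h6)
        · intro h6
          exact absurd (mem_univ _) h6
      · rw [Finset.sum_eq_zero, hb2 _ (by omega) (by omega), Nat.choose_eq_zero_of_lt (by omega)]
        · simp
        · intro j _
          have := j.isLt
          rw [if_neg (by omega)]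
    -- the coefficient of `X`
    obtain ⟨T, hT⟩ : ∃ T, T = C (n : ℤ) * (X * (X + C (m : ℤ)) ^ L) := ⟨_, rfl⟩
    rw [← hT] at hcoeff ⊢
    have hT0 : T.coeff 0 = 0 := by
      rw [hT, coeff_C_mul, coeff_X_mul_zero, mul_zero]
    have hT1 : T.eval 1 = (n : ℤ) * ((m : ℤ) + 1) ^ L := by
      rw [hT]
      simp only [eval_mul, eval_C, eval_X, eval_pow, eval_add]
      ring
    have hdiff : W - T = C ((W - T).coeff 1) * X := by
      ext k
      rw [coeff_C_mul, coeff_X]
      rcases Nat.lt_or_ge k 2 with h | h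
      · interval_cases k
        · rw [coeff_sub, hzero, hT0]
          simp
        · simp
      · rw [coeff_sub, hcoeff k h, if_neg (by omega)]
        ring
    have h7 := congrArg (fun P : ℤ[X] => P.eval 1) hdiff
    simp only [eval_sub, eval_mul, eval_C, eval_X, mul_one, hone', hT1, sub_self] at h7
    rw [← h7] at hdiff
    simp only [map_zero, zero_mul] at hdiff
    exact sub_eq_zero.1 hdiff

/-- **Main result.** For every `D` there is a finite connected graph of diameter at least `D` all
of whose Wiener roots (complex roots of the Wiener polynomial) are rational. -/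
theorem result : ∀ D : ℕ, ∃ (V : Type) (_ : Fintype V) (G : SimpleGraph V),
    G.Connected ∧ D ≤ G.diam ∧ wiener G ≠ 0 ∧
    ∀ z : ℂ, aeval z (wiener G) = 0 → ∃ q : ℚ, z = (q : ℂ) := by
  intro D
  obtain ⟨V, hV, G, n, m, hn, hG, hd, hW⟩ := main (D + 1) (by omega)
  refine ⟨V, hV, G, hG, by omega, ?_, ?_⟩
  · intro h
    have h1 := congrArg (fun P : ℤ[X] => P.eval 1) h
    rw [hW] at h1
    simp only [eval_mul, eval_C, eval_X, eval_pow, eval_add, eval_zero] at h1
    have h2 : (0 : ℤ) < (n : ℤ) * (1 * (1 + (m : ℤ)) ^ (D + 1)) := by positivity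
    omega
  · intro z hz
    rw [hW] at hz
    simp only [map_mul, map_pow, map_add, aeval_X, aeval_C] at hz
    rcases mul_eq_zero.1 hz with h | h
    · exfalso
      simp only [algebraMap_int_eq, eq_intCast, Int.cast_natCast, Nat.cast_eq_zero] at h
      omega
    · rcases mul_eq_zero.1 h with h | h
      · exact ⟨0, by simp [h]⟩
      · have h1 := pow_eq_zero_iff (by omega : D + 1 ≠ 0) |>.1 h
        refine ⟨-(m : ℚ), ?_⟩
        simp only [algebraMap_int_eq, eq_intCast, Int.cast_natCast] at h1
        push_cast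
        linear_combination h1

end Pool.Agent.Results.MP_96b1db_co.RationalRoots
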